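import Mathlib
import Pool.Agent.H633R3.Corr5

/-!
Second question: for the weight `w k = e (k ^ 2 α)` with `α` irrational, the correlated sums
`∑_{k ≤ n} w k * a (k d) * b (k d + d)` are unbounded over `d, n ≥ 1`, for all unimodular
sequences `a` and `b`.
-/

set_option autoImplicit false

namespace Pool.Agent.Results.MP_4efd57_nt.QuadraticWeight

open Finset Pool.Agent.H633R3.Corr

open scoped ENNReal

/-- `D_w(a, b)`: the supremum over `d, n ≥ 1` of `|∑_{k=1}^n w(k) a(kd) b(kd+d)|`, an element of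
`[0, ∞]`. (The values of `a` and `b` at `0` play no role.) -/
noncomputable def D (w : ℕ → ℂ) (a b : ℕ → Circle) : ℝ≥0∞ :=
  ⨆ (d : ℕ) (_ : 1 ≤ d) (n : ℕ) (_ : 1 ≤ n),
    ENNReal.ofReal ‖∑ k ∈ Icc 1 n, w k * ((a (k * d) : ℂ) * (b (k * d + d) : ℂ))‖

/-- For every irrational `α` and all `a, b : ℕ → 𝕊` the quantity `D_w(a, b)` is infinite for the
weight `w(k) = e(k² α)`. -/
theorem result : ∀ α : ℝ, Irrational α → ∀ a b : ℕ → Circle,
    D (fun k => Complex.exp (2 * Real.pi * Complex.I * ((k : ℂ) ^ 2 * α))) a b = ⊤ := by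
  intro α hα a b
  by_contra hne
  obtain ⟨C, hC⟩ : ∃ C : NNReal, (C : ℝ≥0∞) =
      D (fun k => Complex.exp (2 * Real.pi * Complex.I * ((k : ℂ) ^ 2 * α))) a b :=
    ⟨_, ENNReal.coe_toNNReal hne⟩
  refine no_bound (![a, b] : Fin 2 → ℕ → Circle) (![0, 1] : Fin 2 → ℕ) hα (C : ℝ)
    fun d n hd hn => ?_
  have h1 : ENNReal.ofReal ‖∑ k ∈ Icc 1 n, Complex.exp (2 * Real.pi * Complex.I *
      ((k : ℂ) ^ 2 * α)) * ((a (k * d) : ℂ) * (b (k * d + d) : ℂ))‖ ≤ C := by
    rw [hC]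
    unfold D
    exact le_iSup_of_le d (le_iSup_of_le hd (le_iSup_of_le n (le_iSup_of_le hn le_rfl)))
  rw [ENNReal.ofReal_le_iff_le_toReal ENNReal.coe_ne_top, ENNReal.coe_toReal] at h1
  refine le_of_eq_of_le ?_ h1
  congr 1
  refine Finset.sum_congr rfl fun k _ => ?_
  rw [Fin.prod_univ_two]
  simp only [Matrix.cons_val_zero, Matrix.cons_val_one]
  have e1 : d * (k + 0) = k * d := by ring
  have e2 : d * (k + 1) = k * d + d := by ring
  rw [e1, e2]
  congr 1
  unfold e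
  congr 1
  push_cast
  ring

end Pool.Agent.Results.MP_4efd57_nt.QuadraticWeight
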